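import Pool.Agent.Helper50.CT.Defs

/-!
# Project CT (MP_ccd65d_gt): tori are far from intervals, with an explicit bound

Paper proof: `/team-store/helper50_torus_proof.md`.  Final statements: `StmtMAIN`, `StmtTORUS`,
`StmtSEQ`.  Part 0: quotient and comparison facts.  Part A: the elements `2k` are products of short
loops at the midpoint.  Part B: packing.  Part C: Gromov-Hausdorff distance, instances.
-/

set_option autoImplicit false

open Set Filter Topology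

namespace Pool.Agent.Helper50.CT

/-! ## Part 0: quotient and comparison facts -/

/-- The consequences of `IsQuot` which are used (a proper space). -/
structure Cov (n : ℕ) (X T : Type) [MetricSpace X] [MetricSpace T] [AddAction (Fin n → ℤ) X]
    (π : X → T) : Prop where
  isom : ∀ (k : Fin n → ℤ) (x y : X), dist (k +ᵥ x) (k +ᵥ y) = dist x y
  surj : Function.Surjective π
  free : ∃ σ : ℝ, 0 < σ ∧ ∀ (x : X) (k : Fin n → ℤ), k ≠ 0 → σ ≤ dist x (k +ᵥ x)
  le : ∀ (x y : X) (k : Fin n → ℤ), dist (π x) (π y) ≤ dist x (k +ᵥ y)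
  lift : ∀ x y : X, ∃ k : Fin n → ℤ, dist x (k +ᵥ y) = dist (π x) (π y)
  inv : ∀ (k : Fin n → ℤ) (x : X), π (k +ᵥ x) = π x
  fin : ∀ (x y : X) (r : ℝ), {k : Fin n → ℤ | dist x (k +ᵥ y) ≤ r}.Finite

/-- PACKET Q0.  Proof.  `fin`: the points `k +ᵥ y` are `σ`-separated
(`dist (k +ᵥ y) (k' +ᵥ y) = dist y ((k' - k) +ᵥ y) ≥ σ`), so only finitely many are in the compact ball
`closedBall x r`.  `le`: `ciInf_le` (bounded below by `0`).  `lift`: the infimum is attained, by `fin`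
with `r = dist x y` (minimum over the finite nonempty set of the `k` with `dist x (k +ᵥ y) ≤ dist x y`).
`inv`: `le (k +ᵥ x) x k` gives `dist (π (k +ᵥ x)) (π x) ≤ 0`. -/
def StmtQ0 : Prop := ∀ (n : ℕ) (X T : Type) [MetricSpace X] [ProperSpace X] [MetricSpace T]
  [AddAction (Fin n → ℤ) X] (π : X → T), IsQuot n X T π → Cov n X T π

/-- PACKET PS (point-on-side comparison).  Proof.  If `z = x`, `z = y` or `v = z`: equality
(`sinh (A + B) = sinh A cosh B + cosh A sinh B`).  Otherwise use the four-point condition at `z` for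
`x, y, v`.  With `a = κ dist x z`, `b = κ dist z y`, `h = κ dist v z > 0`: the first angle is `π`, because
`(cosh a cosh b - cosh (a + b))/(sinh a sinh b) = -1`; so `α + β ≤ π` for the other two,
`α = ang (dist z v) (dist z x) (dist v x)` and `β`; hence `cos α + cos β ≥ 0`
(`α ≤ π - β`, `cos` decreasing).  By the triangle inequality the arguments of `arccos` are in `[-1, 1]`
(`cosh (a - h) ≤ cosh (κ dist v x) ≤ cosh (a + h)`), so `Real.cos_arccos`; multiply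
`(cosh a cosh h - cosh (κ dist v x))/(sinh a sinh h) + (cosh b cosh h - cosh (κ dist v y))/(sinh b sinh h)
≥ 0` by `sinh a sinh b sinh h`. -/
def StmtPS : Prop := ∀ κ : ℝ, 0 < κ → ∀ (X : Type) [MetricSpace X], CurvGE κ X →
  ∀ v x y z : X, dist x z + dist z y = dist x y →
  Real.sinh (κ * dist z y) * Real.cosh (κ * dist v x)
    + Real.sinh (κ * dist x z) * Real.cosh (κ * dist v y)
    ≤ Real.sinh (κ * dist x y) * Real.cosh (κ * dist v z)

/-- PACKET TRI (no wide tripods).  Proof.  Each of the three comparison angles at `y` is `> 2π/3`: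
for sides `a, b` and `c ≥ a + b - τ`, with `A = κ a`, `B = κ b ≤ 11/10`, `S = κ max τ 0`, `10 S ≤ A, B`:
`cosh (κ c) ≥ cosh (A + B - S) ≥ cosh (A + B) - S sinh (A + B)` (convexity), and
`S sinh (A + B) = S sinh A cosh B + S cosh A sinh B ≤ 1.7 (S sinh A + S sinh B)
≤ 0.34 sinh A sinh B` (`S ≤ A/10 ≤ sinh A/10`, the same for `B`; `cosh (11/10) ≤ 1.7`), so
`(cosh A cosh B - cosh (κ c))/(sinh A sinh B) ≤ -1 + 0.34 < -1/2` and `arccos` of it is
`> arccos (-1/2) = 2π/3` (`Real.arccos_lt_arccos`, or it is `π` if the argument is `≤ -1`).  The sum is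
`> 2π`, a contradiction. -/
def StmtTRI : Prop := ∀ κ : ℝ, 0 < κ → ∀ (X : Type) [MetricSpace X], CurvGE κ X →
  ∀ (y P1 P2 P3 : X) (τ : ℝ), 0 < dist y P1 → 0 < dist y P2 → 0 < dist y P3 →
  κ * dist y P1 ≤ 11 / 10 → κ * dist y P2 ≤ 11 / 10 → κ * dist y P3 ≤ 11 / 10 →
  10 * τ ≤ dist y P1 → 10 * τ ≤ dist y P2 → 10 * τ ≤ dist y P3 →
  dist y P1 + dist y P2 - τ ≤ dist P1 P2 → dist y P1 + dist y P3 - τ ≤ dist P1 P3 →
  dist y P2 + dist y P3 - τ ≤ dist P2 P3 → False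

/-- PACKET SJ (near points are joined above the level `t`).  Proof.  Take the shortest path `c` from
`x` to `y`, `L = dist x y`; for `v = c s`: `dist (π p) (π v) ≥ dist (π p) (π x) - dist x v` and
`≥ dist (π p) (π y) - dist v y`, `dist x v + dist v y = L`, so `2 dist (π p) (π v) > 2t`.  The path is
`s ↦ c (L s)` on the unit interval, continuous because `dist (c (L s)) (c (L s')) = L |s - s'|`. -/
def StmtSJ : Prop := ∀ (X T : Type) [MetricSpace X] [MetricSpace T] (π : X → T), Geod X →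
  (∀ x y : X, dist (π x) (π y) ≤ dist x y) → ∀ (p x y : X) (t : ℝ),
  dist x y < dist (π p) (π x) + dist (π p) (π y) - 2 * t → JoinedIn (Up π p t) x y

/-- PACKET LPC.  Proof.  Any two points are joined by a shortest path (see SJ), and a shortest path
between two points of `ball x r` starting at `x` stays in `ball x r`: balls are path connected. -/
def StmtLPC : Prop := ∀ (X : Type) [MetricSpace X], Geod X →
  LocallyPathConnectedSpace X ∧ ∀ x y : X, Joined x y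

/-- PACKET LAB (locally constant labels).  `Lab w β` means `β` is a label of `w`.
Proof.  Along the path `γ` in `U` from `x` to `y`, the set of `t` in the unit interval such that
some (equivalently every) label of `γ t` is in `β + G` is open and closed, and contains `0`. -/
def StmtLAB : Prop := ∀ (X Γ : Type) [TopologicalSpace X] [AddCommGroup Γ] (G : AddSubgroup Γ)
  (U : Set X) (Lab : X → Γ → Prop), (∀ w ∈ U, ∃ β, Lab w β) →
  (∀ w ∈ U, ∀ β β', Lab w β → Lab w β' → β' - β ∈ G) →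
  (∀ w ∈ U, ∀ β, Lab w β → ∀ᶠ v in 𝓝 w, Lab v β) →
  ∀ (x y : X) (β β' : Γ), JoinedIn U x y → Lab x β → Lab y β' → β' - β ∈ G

/-- PACKET BG (the group of a component of `Up`).  Proof.  `Up π p t` is invariant under the action
(`Cov.inv`), the action is continuous (isometries), so `k +ᵥ` maps paths in `Up` to paths in `Up`.
(1) `0`, sums, negatives.  (2) If `q` is joined to `x` in `Up`, then `k +ᵥ q` is joined to `k +ᵥ x`. -/
def StmtBG : Prop := ∀ (n : ℕ) (X T : Type) [MetricSpace X] [MetricSpace T]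
  [AddAction (Fin n → ℤ) X] (π : X → T), Cov n X T π → ∀ (p q : X) (t : ℝ),
  (t < dist (π p) (π q) → ∃ B : AddSubgroup (Fin n → ℤ), ∀ k : Fin n → ℤ,
    k ∈ B ↔ JoinedIn (Up π p t) q (k +ᵥ q)) ∧
  (∀ (x : X) (k : Fin n → ℤ), JoinedIn (Up π p t) q x → JoinedIn (Up π p t) q (k +ᵥ q) →
    JoinedIn (Up π p t) x (k +ᵥ x)) ∧
  (∀ (x y : X) (k : Fin n → ℤ), JoinedIn (Up π p t) x y →
    JoinedIn (Up π p t) (k +ᵥ x) (k +ᵥ y))

/-! ## Part A: short loops at the midpoint generate `2ℤⁿ` -/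

/-- PACKET GEN (generation lemma; from SJ, LAB, BG).  Write `f w = dist (π p) (π w)`.
Proof.  LAB with `U = Up π p t`, `G` the closure in the conclusion, and `Lab w β`:
(`t' + e < f w` and `w` is joined to `β +ᵥ q` in `Up π p t'`) or (`f w < t' + 2e` and
`dist w (β +ᵥ y) < ρ`).
(1) Existence.  If `t' + e < f w`, take `β` with `dist w (β +ᵥ y0) = dist (π w) (π y0) ≤ |f w - f y0| + e`
(`Cov.lift`, `thin`); SJ at the level `t'` (`f w + f y0 - 2 t' > |f w - f y0| + e` because both are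
`> t' + e`): `w` is joined to `β +ᵥ y0`, and this to `β +ᵥ q` (BG (3)).  If `f w ≤ t' + e`:
`dist (π w) (π y) < ρ`, `Cov.lift`.
(2) Two labels differ by an element of `G`.  Both of the first kind: `β +ᵥ q` is joined to `β' +ᵥ q`,
translate by `-β`.  Both of the second kind: `dist y ((β' - β) +ᵥ y) = dist (β +ᵥ y) (β' +ᵥ y) < 2ρ ≤ r`.
Mixed (`β` first kind, `β'` second kind, `t' + e < f w < t' + 2e`): take `β''` with
`dist w (β'' +ᵥ y0) = dist (π w) (π y0) ≤ |f w - f y0| + e < 2e`; by SJ `w` is joined to `β'' +ᵥ y0`,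
hence to `β'' +ᵥ q`, so `β'' - β ∈ G`; and `dist (β'' +ᵥ y) (β' +ᵥ y) ≤ ρ' + 2e + ρ ≤ r`.
(3) Local constancy: `f` is continuous (`1`-Lipschitz) and if `v` is near `w` then `v` is joined to `w` in
`Up π p t'` by SJ.
The label `0` of `q` and the label `k` of `k +ᵥ q` give the claim. -/
def StmtGEN : Prop := ∀ (n : ℕ) (X T : Type) [MetricSpace X] [MetricSpace T]
  [AddAction (Fin n → ℤ) X] (π : X → T), Geod X → Cov n X T π →
  ∀ (p q y y0 : X) (t t' e ρ ρ' r : ℝ), 0 < e → t ≤ t' →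
  (∀ x y : X, dist (π x) (π y) ≤ |dist (π p) (π x) - dist (π p) (π y)| + e) →
  t' + e < dist (π p) (π q) →
  (∀ w : X, t < dist (π p) (π w) → dist (π p) (π w) < t' + 2 * e → dist (π w) (π y) < ρ) →
  dist (π p) (π y0) = t' + 2 * e → dist y y0 ≤ ρ' → JoinedIn (Up π p t') y0 q →
  2 * ρ ≤ r → ρ + ρ' + 2 * e ≤ r →
  ∀ k : Fin n → ℤ, JoinedIn (Up π p t) q (k +ᵥ q) →
    k ∈ AddSubgroup.closure ({k : Fin n → ℤ | JoinedIn (Up π p t') q (k +ᵥ q)} ∪ Sh n y r)

/-- A shortest path `c` from `p` to `q`, also shortest in the quotient, of length `D`; the quotient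
is `e`-thin along the distance from `π p`; `h ≤ D/2` is the working scale. -/
structure Ray (κ : ℝ) (X T : Type) [MetricSpace X] [MetricSpace T] (π : X → T) (p q : X)
    (c : ℝ → X) (D e h : ℝ) : Prop where
  c0 : c 0 = p
  cD : c D = q
  iso : ∀ s ∈ Icc (0 : ℝ) D, ∀ t ∈ Icc (0 : ℝ) D, dist (c s) (c t) = |s - t|
  dpq : dist (π p) (π q) = D
  thin : ∀ x y : X, dist (π x) (π y) ≤ |dist (π p) (π x) - dist (π p) (π y)| + e
  epos : 0 < e
  hpos : 0 < h
  hD : 2 * h ≤ D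
  kh : κ * h ≤ 1
  small : 10000 * e ≤ h

/-- PACKET FC (position on the ray).  Proof.  `dist (π p) (π (c t)) ≤ dist (c 0) (c t) = t`, and
`≥ D - dist (π (c t)) (π q) ≥ D - (D - t)`.  Second part: for `t' < s ≤ s' ≤ D` the points `c s`, `c s'`
are joined in `Up π p t'` along `c`. -/
def StmtFC : Prop := ∀ (κ : ℝ) (X T : Type) [MetricSpace X] [MetricSpace T] (π : X → T),
  (∀ x y : X, dist (π x) (π y) ≤ dist x y) → ∀ (p q : X) (c : ℝ → X) (D e h : ℝ),
  Ray κ X T π p q c D e h →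
  (∀ t ∈ Icc (0 : ℝ) D, dist (π p) (π (c t)) = t) ∧
  (∀ t' s s' : ℝ, 0 ≤ s → t' < s → s ≤ s' → s' ≤ D → JoinedIn (Up π p t') (c s) (c s'))

/-- PACKET END (the end of the tube; from SJ, LPC, BG, GEN, FC, TRI).  `s = h/100`.
Proof.  GEN with `t = -1` (`Up π p (-1)` is everything, so by LPC every `k` is allowed), `t' = s`, `y = p`,
`ρ = s + 2e`, `y0 = c (s + 2e)`, `ρ' = s + 2e`, `r = 2s + 6e`: every `k` is in the group generated by
`B = {k | q ~ k +ᵥ q in Up s}` and `Sh n p r`.  The `k` with `2k ∈ B` form a subgroup containing `B`;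
so it is enough to show `2k ∈ B` for `k ∈ Sh n p r`.  Suppose not; then `k, -k, 2k ∉ B`.  TRI at
`y = p` with `P1 = c h`, `P2 = k +ᵥ c h`, `P3 = -k +ᵥ c h`, `τ = 2r + 2s = 6s + 12e ≤ h/10`:
`h ≤ dist p Pi ≤ h + r` (`dist (π p) (π Pi) = h`; `dist p (k +ᵥ p) ≤ r`), and
`dist P1 P2, dist P1 P3, dist P2 P3 ≥ 2(h - s)`: otherwise SJ joins them in `Up π p s`, and as `c h` is
joined to `q` (FC), BG gives `k ∈ B`, `-k ∈ B` or `2k ∈ B`. -/
def StmtEND : Prop := ∀ (n : ℕ) (κ : ℝ) (X T : Type) [MetricSpace X] [MetricSpace T]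
  [AddAction (Fin n → ℤ) X] (π : X → T), 0 < κ → Geod X → CurvGE κ X → Cov n X T π →
  ∀ (p q : X) (c : ℝ → X) (D e h : ℝ), Ray κ X T π p q c D e h →
  ∀ k : Fin n → ℤ, JoinedIn (Up π p (h / 100)) q ((k + k) +ᵥ q)

/-- PACKET MID (the middle of the tube; from SJ, BG, GEN, FC, TRI).  `s = h/100`.
Proof.  GEN with `y = c t'`, `ρ = 3e` (for `t < f w < t' + 2e`: `|f w - t'| < 2e` or `f w = ...`, in all
cases `|f w - f y| < 2e`, then `thin`), `y0 = c (t' + 2e)`, `ρ' = 2e`, `r = 7e`: `k` is in the group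
generated by `B' = {k | q ~ k +ᵥ q in Up t'}` and `Sh n y (7e)`.  It remains to see that
`Sh n y (7e) ⊆ B'`.  Let `k ∈ Sh n y (7e)`, `k ∉ B'`; TRI at `y` with `P1 = c (t' - s)`,
`P2 = c (t' + h)`, `P3 = k +ᵥ c (t' + h)`, `τ = 7e ≤ s/10`: `dist y P1 = s`, `dist y P2 = h`,
`h ≤ dist y P3 ≤ h + 7e`, `dist P1 P2 = h + s`, `dist P1 P3 ≥ f P3 - f P1 = h + s`, and
`dist P2 P3 ≥ 2h` because otherwise SJ (level `t'`) joins `P2` to `k +ᵥ P2`, so `k ∈ B'` (FC, BG). -/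
def StmtMID : Prop := ∀ (n : ℕ) (κ : ℝ) (X T : Type) [MetricSpace X] [MetricSpace T]
  [AddAction (Fin n → ℤ) X] (π : X → T), 0 < κ → Geod X → CurvGE κ X → Cov n X T π →
  ∀ (p q : X) (c : ℝ → X) (D e h : ℝ), Ray κ X T π p q c D e h →
  ∀ t t' : ℝ, h / 100 ≤ t → t ≤ t' → t' ≤ t + 2 * e → t' + h ≤ D →
  ∀ k : Fin n → ℤ, JoinedIn (Up π p t) q (k +ᵥ q) → JoinedIn (Up π p t') q (k +ᵥ q)

/-- PACKET TOP (the only place where `X` is simply connected).
Proof.  Let `M = L ∩ R` (open), `M1` the path component of `x` in `M` (open, and open in `M` is also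
`M \ M1`, as `X` is locally path connected).  Suppose `y ∉ M1`.  Let `u : X → ℝ` be continuous with
`u = 0` off `R` and `u = 1` off `L` (`exists_continuous_zero_one_of_isClosed`; the complements are
disjoint).  `φ : X → AddCircle 1`, `φ = u` on `M1`, `0` elsewhere, is continuous: at a point not in `M`,
`u` is `0` or `1`.  Lift it to a continuous `Φ : X → ℝ`
(`(AddCircle.isCoveringMap_coe 1).existsUnique_continuousMap_lifts`).  On `L` the function
`u 1_{M1}` and on `R` the function `(u - 1) 1_{M1}` is continuous and lifts `φ`; so along a path in `L`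
from `x` to `y` the difference `Φ - u 1_{M1}` (an integer) is constant: `Φ y - 0 = Φ x - u x`; along a path
in `R`: `Φ y - 0 = Φ x - (u x - 1)`.  Contradiction. -/
def StmtTOP : Prop := ∀ (X : Type) [MetricSpace X] [SimplyConnectedSpace X]
  [LocallyPathConnectedSpace X] (L R : Set X), IsOpen L → IsOpen R → L ∪ R = univ →
  ∀ x y : X, JoinedIn L x y → JoinedIn R x y → JoinedIn (L ∩ R) x y

/-! ## Part B: packing -/

/-- PACKET EX (the contraction inequality for numbers).  Proof.  With `A = κ a` etc. the hypothesis,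
divided by `sinh A sinh B`, is `cosh D' - cosh (λA - λB) ≥ (sinh λA sinh λB/(sinh A sinh B))
(cosh D0 - cosh (A - B))`.  By `cosh u - 1 = 2 sinh (u/2)^2` and `sinh (λ t) ≥ (λ/S) sinh t` for
`0 ≤ t ≤ 11/10`, `S = 1.23` (`sinh (λt) ≥ λ t`, `sinh t ≤ S t`), `sinh (D'/2)^2 ≥ (λ/S)^2 sinh (D0/2)^2`
(`sinh (λ(A-B)/2)^2 ≥ (λ/S)^2 sinh ((A-B)/2)^2`), so `S D'/2 ≥ sinh (D'/2) ≥ (λ/S) D0/2`
(`D' ≤ λ(A+B) ≤ 11/5`) and `D' ≥ (λ/S^2) D0 ≥ (λ/2) D0`.  Here `D', D0` are multiplied by `κ`. -/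
def StmtEX : Prop := ∀ κ a b D0 D' l : ℝ, 0 < κ → 0 < a → 0 < b → κ * a ≤ 11 / 10 →
  κ * b ≤ 11 / 10 → 0 < l → l ≤ 1 → |a - b| ≤ D0 → D0 ≤ a + b → 0 ≤ D' → D' ≤ l * (a + b) →
  Real.sinh (κ * b) * Real.sinh (κ * (a - l * a)) * Real.cosh (κ * (l * b))
    + Real.sinh (κ * (l * a)) * (Real.sinh (κ * (b - l * b)) * Real.cosh (κ * a)
      + Real.sinh (κ * (l * b)) * Real.cosh (κ * D0))
    ≤ Real.sinh (κ * a) * Real.sinh (κ * b) * Real.cosh (κ * D') →
  l / 2 * D0 ≤ D'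

/-- PACKET CX (contraction in `X`; from PS, EX).  Proof.  `a = dist o z`, `b = dist o w`.  If `a = 0` then
`z = z' = o` and `dist z' w' = l b ≥ (l/2) b`; the same if `b = 0`.  Otherwise PS twice: vertex `w'`, side
`o z` with the point `z'`; vertex `z`, side `o w` with the point `w'`; multiply the first by `sinh κb` and
insert the second: hypothesis of EX with `D0 = dist z w`, `D' = dist z' w'`. -/
def StmtCX : Prop := ∀ κ : ℝ, 0 < κ → ∀ (X : Type) [MetricSpace X], CurvGE κ X →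
  ∀ (o z w z' w' : X) (l : ℝ), 0 < l → l ≤ 1 → κ * dist o z ≤ 11 / 10 → κ * dist o w ≤ 11 / 10 →
  dist o z' = l * dist o z → dist z' z = (1 - l) * dist o z →
  dist o w' = l * dist o w → dist w' w = (1 - l) * dist o w → l / 2 * dist z w ≤ dist z' w'

/-- PACKET QC (the quotient is a geodesic space with curvature `≥ -κ²`).
Proof.  `Geod T`: lift `x, y` to points with `dist x~ y~ = dist x y` (`Cov.surj`, `Cov.lift`), `c~` a shortest
path, `c = π ∘ c~`; `dist (c s) (c t) ≤ |s - t|`, and for `s ≤ t` the triangle inequality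
`L ≤ s + dist (c s) (c t) + (L - t)` gives equality.
`CurvGE κ T`: let `p~` be a lift of the vertex, `x~, y~, z~` lifts of `x, y, z` with
`dist p~ x~ = dist p x` etc.; `dist x~ y~ ≥ dist x y` etc., and `ang κ a b c` is monotone in `c ≥ 0` (for
`a, b > 0`), because `arccos` is decreasing (`Real.arccos_le_arccos`) and `cosh` increasing on `[0, ∞)`. -/
def StmtQC : Prop := ∀ (n : ℕ) (κ : ℝ) (X T : Type) [MetricSpace X] [MetricSpace T]
  [AddAction (Fin n → ℤ) X] (π : X → T), 0 < κ → Geod X → CurvGE κ X → Cov n X T π →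
  Geod T ∧ CurvGE κ T

/-- PACKET SLIDE (from CX; used for `Y = T`).  Proof.  For `z ∈ S` take a shortest path from `o` to `z`,
and for `j < J` the point `z_j` on it at the ratio `l_j = 1 - 3jρ/a` (`l_j ≥ 3/4`, as `3jρ ≤ a/4`).  `S1` is the
set of the `z_j`.  Same `j`: CX gives `dist ≥ (l_j/2) σ ≥ (3/8) σ` (`κ dist o z ≤ κ (a + ρ) ≤ 11/10`).
Different `j < i`: `dist o z_j = l_j dist o z ∈ [l_j a - ρ, l_j a + ρ]`, so the distances to `o` differ by at
least `3ρ - 2ρ = ρ ≥ σ`.  In particular the points are different: `#S1 = J #S`.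
`dist z_j x ≤ (1 - l_j)(a + ρ) + ρ ≤ a/4 + ρ/4 + ρ ≤ a/2`. -/
def StmtSLIDE : Prop := ∀ κ : ℝ, 0 < κ → ∀ (Y : Type) [MetricSpace Y], Geod Y → CurvGE κ Y →
  ∀ (o x : Y) (a ρ σ : ℝ) (J : ℕ) (S : Finset Y), dist o x = a → κ * a ≤ 1 → 0 < ρ →
  16 * ρ ≤ a → 0 < σ → σ ≤ ρ → 3 * ((J : ℝ) - 1) * ρ ≤ a / 4 → (∀ z ∈ S, dist z x ≤ ρ) →
  Sep σ S →
  ∃ S1 : Finset Y, (∀ z ∈ S1, dist z x ≤ a / 2) ∧ Sep (3 / 8 * σ) S1 ∧ J * S.card = S1.card

/-- PACKET LIFT.  Proof.  `S2` is the set of the points `k +ᵥ z~`, `z~` a lift of `z ∈ S1` with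
`dist x z~ = dist (π x) z ≤ a/2`, and `k ∈ Sh n x (a/2)` (a finite set, `Cov.fin`).
`dist x (k +ᵥ z~) ≤ dist x (k +ᵥ x) + dist (k +ᵥ x) (k +ᵥ z~) ≤ a`.  Different `z`: the distance is at least
the one in `T`, `≥ τ`; the same `z`: `≥ τ` by the hypothesis on `τ`. -/
def StmtLIFT : Prop := ∀ (n : ℕ) (X T : Type) [MetricSpace X] [MetricSpace T]
  [AddAction (Fin n → ℤ) X] (π : X → T), Cov n X T π →
  ∀ (x : X) (a τ : ℝ) (S1 : Finset T), 0 < τ →
  (∀ (y : X) (k : Fin n → ℤ), k ≠ 0 → τ ≤ dist y (k +ᵥ y)) →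
  (∀ z ∈ S1, dist z (π x) ≤ a / 2) → Sep τ S1 →
  ∃ S2 : Finset X, (∀ z ∈ S2, dist z x ≤ a) ∧ Sep τ S2 ∧
    (Sh n x (a / 2)).ncard * S1.card = S2.card

/-- PACKET SHRINK (from CX).  Proof.  Map `z` to the point at the ratio `l = ρ/a` of a shortest path from
`x` to `z`: by CX distances are multiplied by at least `l/2`. -/
def StmtSHRINK : Prop := ∀ κ : ℝ, 0 < κ → ∀ (X : Type) [MetricSpace X], Geod X → CurvGE κ X →
  ∀ (x : X) (a ρ τ : ℝ) (S2 : Finset X), 0 < ρ → ρ ≤ a → κ * a ≤ 1 → 0 < τ →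
  (∀ z ∈ S2, dist z x ≤ a) → Sep τ S2 →
  ∃ S3 : Finset X, (∀ z ∈ S3, dist z x ≤ ρ) ∧ Sep (ρ / (2 * a) * τ) S3 ∧ S3.card = S2.card

/-- PACKET PROJ.  Proof.  Let `S4` be a `(τ/3)`-separated subset of `π(S3)` with the largest number of
elements; then every point of `π(S3)` is at distance `< τ/3` from some point of `S4`.  For `z ∈ S4` choose
`z~ ∈ S3` with `π z~ = z`.  For `y ∈ S3` choose `z ∈ S4` with `dist (π y) z < τ/3` and `k` with
`dist y (k +ᵥ z~) = dist (π y) z`.  The map `y ↦ (k, z)` is injective (two such `y` are at distance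
`< 2τ/3`), and `dist x (k +ᵥ x) ≤ dist x y + dist y (k +ᵥ z~) + dist (k +ᵥ z~) (k +ᵥ x) ≤ 2ρ + τ/3
≤ 3ρ`. -/
def StmtPROJ : Prop := ∀ (n : ℕ) (X T : Type) [MetricSpace X] [MetricSpace T]
  [AddAction (Fin n → ℤ) X] (π : X → T), Cov n X T π →
  ∀ (x : X) (ρ τ : ℝ) (S3 : Finset X), 0 < τ → τ ≤ ρ → (∀ z ∈ S3, dist z x ≤ ρ) → Sep τ S3 →
  ∃ S4 : Finset T, (∀ z ∈ S4, dist z (π x) ≤ ρ) ∧ Sep (τ / 3) S4 ∧
    S3.card ≤ (Sh n x (3 * ρ)).ncard * S4.card

/-- PACKET PACK (from QC, SLIDE, LIFT, SHRINK, PROJ).  Proof.  `SLIDE` is used in `T` (QC), `SHRINK` in `X`.  Let `N = #Sh(a/2)`, `N' = #Sh(3ρ) ≥ 1`,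
`θ = ρ/(16a) ≤ 1`, and `σ0 ≤ min ρ 1` at most the constant of `Cov.free`.  For every `σ`-separated `S` in the
ball of radius `ρ` around `π x`, `0 < σ ≤ σ0`, there is a `θσ`-separated `S'` in the same ball with
`N J #S ≤ N' #S'` (SLIDE, LIFT with `τ = (3/8)σ`, SHRINK, PROJ with `τ = (ρ/(2a))(3/8)σ`;
`τ/3 = θ σ`).  Starting with `{π x}`: `(N J)^i ≤ N'^i #S_i ≤ N'^i C (θ^i σ0)^(-n)` for all `i` (`BoxDim`),
so `(N J θ^n)^i ≤ (C/σ0^n) N'^i` for all `i`, hence `N J θ^n ≤ N'`. -/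
def StmtPACK : Prop := ∀ (n : ℕ) (κ : ℝ) (X T : Type) [MetricSpace X] [MetricSpace T]
  [AddAction (Fin n → ℤ) X] (π : X → T), 0 < κ → Geod X → CurvGE κ X → Cov n X T π →
  BoxDim n T → ∀ (o x : X) (a ρ : ℝ) (J : ℕ), dist (π o) (π x) = a → κ * a ≤ 1 → 0 < ρ →
  16 * ρ ≤ a → 3 * ((J : ℝ) - 1) * ρ ≤ a / 4 →
  ((Sh n x (a / 2)).ncard : ℝ) * J ≤ (Sh n x (3 * ρ)).ncard * (16 * a / ρ) ^ n

/-- PACKET COUNT (lattice points).  Proof.  `B = {k | ν k ≤ r}` is finite, symmetric, contains `0`.  As the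
closure of `B` contains `2ℤⁿ`, the real span of `B` is `ℝⁿ`, so `B` contains `n` linearly independent
vectors; choose `v_1, .., v_n ∈ B` with `|det (v_1, .., v_n)| > 0` maximal.  By Cramer's rule, every
`b ∈ B` is `∑ x_i v_i` with `|x_i| ≤ 1` (`x_i` is the quotient of the determinant with `v_i` replaced
by `b`).  Then the `m^n #B` vectors `b + ∑ 3 k_i v_i`, `b ∈ B`, `0 ≤ k_i < m`, are different
(`|x_i - x_i'| ≤ 2 < 3`) and `ν` of them is at most `r + 3n(m-1) r`. -/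
def StmtCOUNT : Prop := ∀ (n : ℕ) (ν : (Fin n → ℤ) → ℝ) (r : ℝ) (m : ℕ), ν 0 = 0 →
  (∀ k k', ν (k + k') ≤ ν k + ν k') → (∀ k, ν (-k) = ν k) → (∀ s : ℝ, {k | ν k ≤ s}.Finite) →
  0 ≤ r → (∀ k : Fin n → ℤ, k + k ∈ AddSubgroup.closure {k | ν k ≤ r}) → 1 ≤ m →
  m ^ n * {k | ν k ≤ r}.ncard ≤ {k | ν k ≤ (1 + 3 * n * ((m : ℝ) - 1)) * r}.ncard

/-- PACKET B (from PACK, COUNT).  Proof.  `ν k = dist x (k +ᵥ x)` (subadditive and symmetric by `isom`).  If
`a < 32 e` or `a < 36 n e` the claim is trivial (`n ≥ 1`).  Otherwise `ρ = 2e`,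
`m = ⌊a/(36 n e)⌋ ≥ a/(72 n e)`, `m ≥ 1`, `J = 1 + ⌊a/(24 e)⌋ ≥ a/(24 e)`; `(1 + 3n(m-1)) 6e ≤ 18 n m e
≤ a/2`; so COUNT (with `r = 6e`) and PACK give `m^n J ≤ (8a/e)^n` (divide by `#Sh(6e) ≥ 1`), hence
`(a/(72ne))^n (a/(24e)) ≤ (8a/e)^n`, i.e. `a/(24e) ≤ (576 n)^n`. -/
def StmtB : Prop := ∀ (n : ℕ) (κ : ℝ) (X T : Type) [MetricSpace X] [MetricSpace T]
  [AddAction (Fin n → ℤ) X] (π : X → T), 1 ≤ n → 0 < κ → Geod X → CurvGE κ X →
  Cov n X T π → BoxDim n T → ∀ (o x : X) (a e : ℝ), dist (π o) (π x) = a → κ * a ≤ 1 → 0 < e →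
  (∀ k : Fin n → ℤ, k + k ∈ AddSubgroup.closure (Sh n x (6 * e))) →
  a ≤ 24 * (576 * (n : ℝ)) ^ n * e

/-! ## Part C: Gromov-Hausdorff distance, conclusion -/

/-- PACKET GH.  Proof.  `GromovHausdorff.ghDist_eq_hausdorffDist`: isometric embeddings `Φ`, `Ψ` of
`T` and `I = [0, l]` in one space with Hausdorff distance `< δ` of the (compact) ranges; choose
`F : T → I` with `dist (Φ x) (Ψ (F x)) < δ`, and for every `t ∈ I` there is `x` with
`dist (Φ x) (Ψ t) < δ`.  So `| |F x - F y| - dist x y | ≤ ε := 2δ` and every `t ∈ I` is `ε`-close to some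
`F x`.  Let `F p ≤ ε`, and `q` a point with `dist p q` maximal, `D = dist p q`.  Then
`dist p x - (F x - F p) ∈ [-ε, 3ε]` for all `x` (`F x ≥ F p - ε`), so
`|(dist p x - dist p y) - (F x - F y)| ≤ 4ε` and `dist x y ≤ |F x - F y| + ε ≤ |dist p x - dist p y| + 5ε`.
`D ≥ l - 3ε` (a point with `F ≥ l - ε`).  `dist q x ∈ [D - dist p x, D - dist p x + 5ε]`, as
`dist p x ≤ D`; so `|dist p x - dist p y| ≤ |dist q x - dist q y| + 5ε`. -/
def StmtGH : Prop := ∀ (T : Type) [MetricSpace T] [CompactSpace T] [Nonempty T] (l δ : ℝ)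
  [Nonempty (Icc (0 : ℝ) l)], 0 < l → GromovHausdorff.ghDist T (Icc (0 : ℝ) l) < δ →
  ∃ p q : T, (∀ x y, dist x y ≤ |dist p x - dist p y| + 20 * δ) ∧
    (∀ x y, dist x y ≤ |dist q x - dist q y| + 20 * δ) ∧
    (∀ x, dist p x + dist q x ≤ dist p q + 20 * δ) ∧ l - 6 * δ ≤ dist p q

/-- The general theorem (assembly by helper50). -/
def StmtMAIN : Prop := ∀ (n : ℕ) (κ l : ℝ) (X T : Type) [MetricSpace X] [ProperSpace X]
  [SimplyConnectedSpace X] [MetricSpace T] [CompactSpace T] [Nonempty T]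
  [Nonempty (Icc (0 : ℝ) l)] [AddAction (Fin n → ℤ) X] (π : X → T), 1 ≤ n → 0 < κ → 0 < l →
  Geod X → CurvGE κ X → IsQuot n X T π → BoxDim n T →
  min l (1 / κ) / (2000 * (600 * (n : ℝ)) ^ n) ≤ GromovHausdorff.ghDist T (Icc (0 : ℝ) l)

/-- PACKET TB (box dimension of the torus).  Proof.  `π (rv k + x) = π x` (`quot`: the infimum is `≤` the
value at a suitable `k`, which is `d y y = 0` (`bilip`); it is `≥ 0`), so every point of `T` is `π x` with
`x ∈ [0,1)^n`, and `dist (π x) (π y) ≤ d x y ≤ C ‖x - y‖`, we may take `C ≥ 1`.  For `0 < σ ≤ 1` let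
`M = ⌊C/σ⌋ + 1` and divide `[0,1)^n` into `M^n` cubes of side `1/M`: inside a cube
`d ≤ C ‖·‖ < C/M < σ`, so a `σ`-separated set has at most `M^n` points (the map
`x ↦ (⌊M x_i⌋)_i` to `Fin n → Fin M` is injective on it), and `(M σ)^n ≤ (C + 1)^n`. -/
def StmtTB : Prop := ∀ (n : ℕ) (κ : ℝ) (d : (Fin n → ℝ) → (Fin n → ℝ) → ℝ) (T : Type)
  [MetricSpace T] (π : (Fin n → ℝ) → T), TorusMetric n κ d → IsTorus n d T π → BoxDim n T

/-- PACKET TORUS (from MAIN, TB).  Proof.  Let `X` be the type `Fin n → ℝ` with the metric `d`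
(a one-field structure or a `def` synonym; `MetricSpace` with `dist = d`; `d x x = 0` and
`d x y = 0 → x = y` from `bilip`), `AddAction` by `k +ᵥ x = rv k + x`.  The identity `(Fin n → ℝ) ≃ₜ X` is a
homeomorphism (`bilip`), so `X` is contractible, hence simply connected, and proper: a closed ball is
the image of a closed bounded, hence compact, set.  `free` with `σ = c`: `c ‖x - (rv k + x)‖ =
c ‖rv k‖ ≥ c` for `k ≠ 0`.  `Geod X`, `CurvGE κ X` are the hypotheses `geod`, `curv`. -/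
def StmtTORUS : Prop := ∀ (n : ℕ) (κ l : ℝ) (d : (Fin n → ℝ) → (Fin n → ℝ) → ℝ) (T : Type)
  [MetricSpace T] [CompactSpace T] [Nonempty T] [Nonempty (Icc (0 : ℝ) l)]
  (π : (Fin n → ℝ) → T), 1 ≤ n → 0 < κ → 0 < l → TorusMetric n κ d → IsTorus n d T π →
  min l (1 / κ) / (2000 * (600 * (n : ℝ)) ^ n) ≤ GromovHausdorff.ghDist T (Icc (0 : ℝ) l)

end Pool.Agent.Helper50.CT
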