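import Pool.Agent.Helper50.CT.Goals

/-!
# Project CT: assembly of part A and of the main theorem
-/

set_option autoImplicit false

open Set Filter Topology

namespace Pool.Agent.Helper50.CT

/-- Going up along the ray. -/
theorem upc (hEND : StmtEND) (hMID : StmtMID) (n : ℕ) (κ : ℝ) (X T : Type) [MetricSpace X]
    [MetricSpace T] [AddAction (Fin n → ℤ) X] (π : X → T) (hκ : 0 < κ) (hG : Geod X)
    (hC : CurvGE κ X) (hV : Cov n X T π) (p q : X) (c : ℝ → X) (D e h : ℝ)
    (hR : Ray κ X T π p q c D e h) (t : ℝ) (h1 : h / 100 ≤ t) (h2 : t + h ≤ D)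
    (k : Fin n → ℤ) : JoinedIn (Up π p t) q ((k + k) +ᵥ q) := by
  have key : ∀ N : ℕ, ∀ t : ℝ, h / 100 ≤ t → t ≤ h / 100 + N * (2 * e) → t + h ≤ D →
      JoinedIn (Up π p t) q ((k + k) +ᵥ q) := by
    intro N
    induction N with
    | zero =>
      intro t h1 h2 _
      have : t = h / 100 := by
        push_cast at h2
        linarith
      rw [this]
      exact hEND n κ X T π hκ hG hC hV p q c D e h hR k
    | succ N ih =>
      intro t h1 h2 h3
      have he := hR.epos
      rcases le_total t (h / 100 + N * (2 * e)) with h4 | h4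
      · exact ih t h1 h4 h3
      · have h5 := ih (max (h / 100) (t - 2 * e)) (le_max_left _ _)
          (max_le (by have : (0 : ℝ) ≤ N * (2 * e) := by positivity
                      linarith) (by push_cast at h2; linarith))
          (by
            have : max (h / 100) (t - 2 * e) ≤ t := max_le h1 (by linarith)
            linarith)
        exact hMID n κ X T π hκ hG hC hV p q c D e h hR _ t (le_max_left _ _)
          (max_le h1 (by linarith)) (by have := le_max_right (h / 100) (t - 2 * e); linarith)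
          h3 _ h5
  obtain ⟨N, hN⟩ := exists_nat_ge ((t - h / 100) / (2 * e))
  have he := hR.epos
  refine key N t h1 ?_ h2
  rw [div_le_iff₀ (by linarith)] at hN
  linarith

/-- The level functions are continuous. -/
theorem cont_f {n : ℕ} {X T : Type} [MetricSpace X] [MetricSpace T] [AddAction (Fin n → ℤ) X]
    {π : X → T} (hV : Cov n X T π) (p : X) : Continuous (fun w => dist (π p) (π w)) := by
  have hle : ∀ x y : X, dist (π x) (π y) ≤ dist x y := by
    intro x y
    have := hV.le x y 0
    rwa [zero_vadd] at this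
  have hπ : Continuous π := by
    have : LipschitzWith 1 π := LipschitzWith.of_dist_le_mul (by
      intro x y
      simpa using hle x y)
    exact this.continuous
  exact continuous_const.dist hπ

/-- Part A: `2ℤⁿ` is generated by short loops at the midpoint. -/
theorem partA (hEND : StmtEND) (hMID : StmtMID) (hTOP : StmtTOP) (hLPC : StmtLPC)
    (hLAB : StmtLAB) (hBG : StmtBG) (hFC : StmtFC) (n : ℕ) (κ : ℝ) (X T : Type) [MetricSpace X]
    [SimplyConnectedSpace X] [MetricSpace T] [AddAction (Fin n → ℤ) X] (π : X → T)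
    (hκ : 0 < κ) (hG : Geod X) (hC : CurvGE κ X) (hV : Cov n X T π) (p q : X) (c : ℝ → X)
    (D e h : ℝ) (hR : Ray κ X T π p q c D e h)
    (hR' : Ray κ X T π q p (fun t => c (D - t)) D e h)
    (h3 : ∀ w : X, dist (π p) (π w) + dist (π q) (π w) ≤ D + e) (k : Fin n → ℤ) :
    k + k ∈ AddSubgroup.closure (Sh n (c (D / 2)) (6 * e)) := by
  have hle : ∀ x y : X, dist (π x) (π y) ≤ dist x y := by
    intro x y
    have := hV.le x y 0
    rwa [zero_vadd] at this
  have he := hR.epos
  have hh := hR.hpos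
  have hD := hR.hD
  have hs := hR.small
  have : LocallyPathConnectedSpace X := (hLPC X hG).1
  obtain ⟨x, hx⟩ : ∃ x, x = c (D / 2) := ⟨_, rfl⟩
  rw [← hx]
  have hxR : JoinedIn (Up π p (D / 2 - e)) x ((k + k) +ᵥ x) := by
    have h1 := upc hEND hMID n κ X T π hκ hG hC hV p q c D e h hR (D / 2 - e) (by linarith)
      (by linarith) k
    have h2 := (hFC κ X T π hle p q c D e h hR).2 (D / 2 - e) (D / 2) D (by linarith)
      (by linarith) (by linarith) le_rfl
    rw [hR.cD, ← hx] at h2
    exact (hBG n X T π hV p q (D / 2 - e)).2.1 x (k + k) h2.symm h1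
  have hxL : JoinedIn (Up π q (D / 2 - e)) x ((k + k) +ᵥ x) := by
    have h1 := upc hEND hMID n κ X T π hκ hG hC hV q p _ D e h hR' (D / 2 - e) (by linarith)
      (by linarith) k
    have h2 : JoinedIn (Up π q (D / 2 - e)) (c (D - D / 2)) (c (D - D)) :=
      (hFC κ X T π hle q p _ D e h hR').2 (D / 2 - e) (D / 2) D (by linarith)
      (by linarith) (by linarith) le_rfl
    rw [sub_self, hR.c0, show D - D / 2 = D / 2 by ring, ← hx] at h2
    exact (hBG n X T π hV q p (D / 2 - e)).2.1 x (k + k) h2.symm h1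
  have hopen : ∀ p : X, ∀ t : ℝ, IsOpen (Up π p t) := fun p t =>
    isOpen_lt continuous_const (cont_f hV p)
  have hcov : Up π q (D / 2 - e) ∪ Up π p (D / 2 - e) = univ := by
    rw [eq_univ_iff_forall]
    intro w
    by_contra hw
    rw [mem_union, not_or] at hw
    obtain ⟨h1, h2⟩ := hw
    have h1 : dist (π q) (π w) ≤ D / 2 - e := not_lt.1 h1
    have h2 : dist (π p) (π w) ≤ D / 2 - e := not_lt.1 h2
    have h4 := dist_triangle (π p) (π w) (π q)
    rw [hR.dpq, dist_comm (π w) (π q)] at h4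
    linarith
  have hJ := hTOP X _ _ (hopen q (D / 2 - e)) (hopen p (D / 2 - e)) hcov x _ hxL hxR
  have hfx : dist (π p) (π x) = D / 2 := by
    rw [hx]
    exact (hFC κ X T π hle p q c D e h hR).1 (D / 2) ⟨by linarith, by linarith⟩
  have hres := hLAB X (Fin n → ℤ) (AddSubgroup.closure (Sh n x (6 * e)))
    (Up π q (D / 2 - e) ∩ Up π p (D / 2 - e)) (fun w β => dist w (β +ᵥ x) < 3 * e) ?_ ?_ ?_
    x ((k + k) +ᵥ x) 0 (k + k) hJ ?_ ?_
  · rwa [sub_zero] at hres
  · rintro w ⟨hw1, hw2⟩
    have hw1 : D / 2 - e < dist (π q) (π w) := hw1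
    have hw2 : D / 2 - e < dist (π p) (π w) := hw2
    have h5 := h3 w
    obtain ⟨β, hβ⟩ := hV.lift w x
    refine ⟨β, ?_⟩
    show dist w (β +ᵥ x) < 3 * e
    rw [hβ]
    have h6 := hR.thin w x
    rw [hfx] at h6
    have h7 : |dist (π p) (π w) - D / 2| < 2 * e := by
      rw [abs_lt]; constructor <;> linarith
    linarith
  · intro w _ β β' h5 h6
    apply AddSubgroup.subset_closure
    show dist x ((β' - β) +ᵥ x) ≤ 6 * e
    have h5 : dist w (β +ᵥ x) < 3 * e := h5
    have h6 : dist w (β' +ᵥ x) < 3 * e := h6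
    have h7 : dist (β +ᵥ x) (β' +ᵥ x) = dist x ((β' - β) +ᵥ x) := by
      rw [← hV.isom β x ((β' - β) +ᵥ x), vadd_vadd, add_sub_cancel]
    have h8 := dist_triangle_left (β +ᵥ x) (β' +ᵥ x) w
    linarith
  · intro w _ β h5
    have : Continuous (fun v => dist v (β +ᵥ x)) := continuous_id.dist continuous_const
    exact this.continuousAt.eventually_lt continuousAt_const h5
  · show dist x ((0 : Fin n → ℤ) +ᵥ x) < 3 * e
    rw [zero_vadd, dist_self]
    linarith
  · show dist ((k + k) +ᵥ x) ((k + k) +ᵥ x) < 3 * e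
    rw [dist_self]
    linarith

/-- The main theorem from the packets. -/
theorem main (hQ0 : StmtQ0) (hEND : StmtEND) (hMID : StmtMID) (hTOP : StmtTOP)
    (hLPC : StmtLPC) (hLAB : StmtLAB) (hBG : StmtBG) (hFC : StmtFC) (hB : StmtB)
    (hGH : StmtGH) : StmtMAIN := by
  intro n κ l X T _ _ _ _ _ _ _ _ π hn hκ hl hG hC hQ hdim
  have hV : Cov n X T π := hQ0 n X T π hQ
  have hle : ∀ x y : X, dist (π x) (π y) ≤ dist x y := by
    intro x y
    have := hV.le x y 0
    rwa [zero_vadd] at this
  obtain ⟨K, hK⟩ : ∃ K : ℝ, K = (576 * (n : ℝ)) ^ n := ⟨_, rfl⟩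
  have hn1 : (1 : ℝ) ≤ n := by exact_mod_cast hn
  have hK576 : 576 ≤ K := by
    rw [hK]
    calc (576 : ℝ) ≤ 576 * n := by linarith
      _ = (576 * (n : ℝ)) ^ 1 := (pow_one _).symm
      _ ≤ (576 * (n : ℝ)) ^ n := pow_le_pow_right₀ (by linarith) hn
  have hK600 : 1920 * K ≤ 2000 * (600 * (n : ℝ)) ^ n := by
    have h1 : K ≤ (600 * (n : ℝ)) ^ n := by
      rw [hK]
      exact pow_le_pow_left₀ (by positivity) (by linarith) n
    have : 0 ≤ K := by linarith
    linarith
  have hmin : 0 < min l (1 / κ) := lt_min hl (by positivity)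
  refine le_of_forall_gt_imp_ge_of_dense ?_
  intro δ hδ
  have hδ0 : 0 < δ := by
    have h0 : 0 ≤ GromovHausdorff.ghDist T (Icc (0 : ℝ) l) := dist_nonneg
    exact lt_of_le_of_lt h0 hδ
  have hfin : min l (1 / κ) ≤ 1920 * K * δ → min l (1 / κ) / (2000 * (600 * (n : ℝ)) ^ n) ≤ δ := by
    intro h
    rw [div_le_iff₀ (by positivity)]
    have := mul_le_mul_of_nonneg_right hK600 hδ0.le
    linarith
  apply hfin
  rcases le_or_gt (l / 12) δ with h12 | h12
  · have h1 : min l (1 / κ) ≤ l := min_le_left _ _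
    have h2 : 12 * δ ≤ 1920 * K * δ := by
      apply mul_le_mul_of_nonneg_right _ hδ0.le
      linarith
    linarith
  obtain ⟨p0, q0, ht1, ht2, ht3, hD0⟩ := hGH T l δ hl hδ
  obtain ⟨p, hp⟩ := hV.surj p0
  obtain ⟨q1, hq1⟩ := hV.surj q0
  obtain ⟨k1, hk1⟩ := hV.lift p q1
  obtain ⟨q, hq⟩ : ∃ q, q = k1 +ᵥ q1 := ⟨_, rfl⟩
  have hqq : π q = q0 := by rw [hq, hV.inv, hq1]
  obtain ⟨D, hD⟩ : ∃ D, D = dist p0 q0 := ⟨_, rfl⟩
  have hpqD : dist p q = D := by rw [hq, hk1, hp, hq1, hD]
  have hppD : dist (π p) (π q) = D := by rw [hp, hqq, hD]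
  obtain ⟨c, hc0, hc1, hc2⟩ := hG p q
  rw [hpqD] at hc1 hc2
  obtain ⟨e, he⟩ : ∃ e, e = 20 * δ := ⟨_, rfl⟩
  have he0 : 0 < e := by rw [he]; positivity
  obtain ⟨h, hh⟩ : ∃ h, h = min (D / 2) (1 / κ) := ⟨_, rfl⟩
  rw [← hD] at hD0 ht3
  rw [← he] at ht1 ht2 ht3
  have hDl : l / 2 < D := by linarith
  have hh0 : 0 < h := by
    rw [hh]; exact lt_min (by linarith) (by positivity)
  have hhD : 2 * h ≤ D := by
    have : h ≤ D / 2 := by rw [hh]; exact min_le_left _ _
    linarith
  have hκh : κ * h ≤ 1 := by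
    have h1 : h ≤ 1 / κ := by rw [hh]; exact min_le_right _ _
    calc κ * h ≤ κ * (1 / κ) := mul_le_mul_of_nonneg_left h1 hκ.le
      _ = 1 := by field_simp
  have hmh : min l (1 / κ) ≤ 4 * h := by
    rw [hh]
    rcases le_total (D / 2) (1 / κ) with h1 | h1
    · rw [min_eq_left h1]
      have := min_le_left l (1 / κ)
      linarith
    · rw [min_eq_right h1]
      have h2 := min_le_right l (1 / κ)
      have h3 : 0 < 1 / κ := by positivity
      linarith
  suffices hs : h ≤ 480 * K * δ by linarith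
  rcases le_or_gt (10000 * e) h with hsm | hsm
  swap
  · have h2 : 200000 * δ ≤ 480 * K * δ := by
      apply mul_le_mul_of_nonneg_right _ hδ0.le
      linarith
    rw [he] at hsm
    linarith
  have hR : Ray κ X T π p q c D e h :=
    { c0 := hc0
      cD := hc1
      iso := hc2
      dpq := hppD
      thin := by
        intro x y
        rw [hp]
        exact ht1 _ _
      epos := he0
      hpos := hh0
      hD := hhD
      kh := hκh
      small := hsm }
  have hR' : Ray κ X T π q p (fun t => c (D - t)) D e h :=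
    { c0 := by
        show c (D - 0) = q
        rw [sub_zero]; exact hc1
      cD := by
        show c (D - D) = p
        rw [sub_self]; exact hc0
      iso := by
        intro s hs t ht
        show dist (c (D - s)) (c (D - t)) = |s - t|
        rw [hc2 (D - s) ⟨by linarith [hs.2], by linarith [hs.1]⟩ (D - t)
          ⟨by linarith [ht.2], by linarith [ht.1]⟩, ← abs_neg]
        congr 1
        ring
      dpq := by rw [dist_comm]; exact hppD
      thin := by
        intro x y
        rw [hqq]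
        exact ht2 _ _
      epos := he0
      hpos := hh0
      hD := hhD
      kh := hκh
      small := hsm }
  have hA := partA hEND hMID hTOP hLPC hLAB hBG hFC n κ X T π hκ hG hC hV p q c D e h hR hR'
    (by
      intro w
      rw [hp, hqq]
      exact ht3 _)
  have hf := (hFC κ X T π hle p q c D e h hR).1
  have hox : dist (π (c (D / 2 - h))) (π (c (D / 2))) = h := by
    apply le_antisymm
    · calc dist (π (c (D / 2 - h))) (π (c (D / 2))) ≤ dist (c (D / 2 - h)) (c (D / 2)) := hle _ _
        _ = |D / 2 - h - D / 2| := hc2 _ ⟨by linarith, by linarith⟩ _ ⟨by linarith, by linarith⟩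
        _ = h := by rw [show D / 2 - h - D / 2 = -h by ring, abs_neg, abs_of_pos hh0]
    · have h1 := hf (D / 2 - h) ⟨by linarith, by linarith⟩
      have h2 := hf (D / 2) ⟨by linarith, by linarith⟩
      have h3 := dist_triangle (π p) (π (c (D / 2 - h))) (π (c (D / 2)))
      linarith
  have hBB := hB n κ X T π hn hκ hG hC hV hdim (c (D / 2 - h)) (c (D / 2)) h e hox hκh he0 hA
  rw [← hK, he] at hBB
  linarith

end Pool.Agent.Helper50.CT
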