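import Pool.Agent.Helper50.CT.Goals

/-!
# Project CT, packet B
-/

set_option autoImplicit false

namespace Pool.Agent.Helper50.CT

open Set

theorem goalB (hPACK : StmtPACK) (hCOUNT : StmtCOUNT) : StmtB := by
  intro n κ X T _ _ _ π hn hκ hgeod hcurv hcov hbox o x a e ha hκa he H
  have hn1 : (1 : ℝ) ≤ n := by exact_mod_cast hn
  have hn0 : (0 : ℝ) < n := by linarith
  have ha0 : 0 ≤ a := by rw [← ha]; exact dist_nonneg
  have hbig : 576 * (n : ℝ) ≤ (576 * (n : ℝ)) ^ n := by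
    have h1 : (1 : ℝ) ≤ 576 * n := by linarith
    calc 576 * (n : ℝ) = (576 * (n : ℝ)) ^ 1 := (pow_one _).symm
      _ ≤ (576 * (n : ℝ)) ^ n := pow_le_pow_right₀ h1 hn
  have htriv : a < 576 * 24 * n * e → a ≤ 24 * (576 * (n : ℝ)) ^ n * e := by
    intro h
    have : 576 * 24 * n * e ≤ 24 * (576 * (n : ℝ)) ^ n * e := by
      apply mul_le_mul_of_nonneg_right _ he.le
      linarith
    linarith
  rcases lt_or_ge a (32 * e) with h32 | h32
  · apply htriv
    nlinarith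
  rcases lt_or_ge a (36 * n * e) with h36 | h36
  · apply htriv
    nlinarith [mul_pos hn0 he]
  have hapos : 0 < a := by linarith
  obtain ⟨ν, hν⟩ : ∃ ν : (Fin n → ℤ) → ℝ, ν = fun k => dist x (k +ᵥ x) := ⟨_, rfl⟩
  have hν0 : ν 0 = 0 := by
    rw [hν]
    simp
  have hνadd : ∀ k k', ν (k + k') ≤ ν k + ν k' := by
    intro k k'
    rw [hν]
    show dist x ((k + k') +ᵥ x) ≤ dist x (k +ᵥ x) + dist x (k' +ᵥ x)
    rw [add_vadd]
    refine (dist_triangle x (k +ᵥ x) _).trans ?_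
    rw [hcov.isom]
  have hνneg : ∀ k, ν (-k) = ν k := by
    intro k
    rw [hν]
    show dist x (-k +ᵥ x) = dist x (k +ᵥ x)
    rw [← hcov.isom k x (-k +ᵥ x), vadd_vadd, add_neg_cancel, zero_vadd, dist_comm]
  have hνfin : ∀ s : ℝ, {k | ν k ≤ s}.Finite := by
    intro s
    rw [hν]
    exact hcov.fin x x s
  have hSh : ∀ r, Sh n x r = {k | ν k ≤ r} := by
    intro r
    rw [hν]
    rfl
  obtain ⟨m, hm⟩ : ∃ m : ℕ, m = ⌊a / (36 * n * e)⌋₊ := ⟨_, rfl⟩
  obtain ⟨j, hj⟩ : ∃ j : ℕ, j = ⌊a / (24 * e)⌋₊ := ⟨_, rfl⟩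
  have hden : 0 < 36 * (n : ℝ) * e := by positivity
  have hx1 : 1 ≤ a / (36 * n * e) := by rwa [le_div_iff₀ hden, one_mul]
  have hm1 : 1 ≤ m := by
    rw [hm]
    exact Nat.le_floor (by exact_mod_cast hx1)
  have hmle : (m : ℝ) ≤ a / (36 * n * e) := by
    rw [hm]
    exact Nat.floor_le (by positivity)
  have hmge : a / (72 * n * e) ≤ m := by
    have h1 : a / (36 * n * e) < m + 1 := by
      rw [hm]
      exact Nat.lt_floor_add_one _
    have h2 : (1 : ℝ) ≤ m := by exact_mod_cast hm1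
    have h3 : a / (72 * n * e) = (a / (36 * n * e)) / 2 := by
      field_simp
      norm_num
    rw [h3]
    linarith
  have hjle : (j : ℝ) ≤ a / (24 * e) := by
    rw [hj]
    exact Nat.floor_le (by positivity)
  have hjge : a / (24 * e) ≤ ((1 + j : ℕ) : ℝ) := by
    have h1 : a / (24 * e) < j + 1 := by
      rw [hj]
      exact Nat.lt_floor_add_one _
    push_cast
    linarith
  -- PACK
  have hP := hPACK n κ X T π hκ hgeod hcurv hcov hbox o x a (2 * e) (1 + j) ha hκa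
    (by linarith) (by linarith) (by
      have h1 : (j : ℝ) * (24 * e) ≤ a := by
        rwa [le_div_iff₀ (by positivity)] at hjle
      push_cast
      nlinarith)
  -- COUNT
  have hC := hCOUNT n ν (6 * e) m hν0 hνadd hνneg hνfin (by linarith) (by
    rw [← hSh]
    exact H) hm1
  have hr : (1 + 3 * n * ((m : ℝ) - 1)) * (6 * e) ≤ a / 2 := by
    have h1 : (m : ℝ) * (36 * n * e) ≤ a := by
      rwa [le_div_iff₀ hden] at hmle
    nlinarith [mul_pos hn0 he]
  have hC2 : m ^ n * (Sh n x (6 * e)).ncard ≤ (Sh n x (a / 2)).ncard := by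
    rw [hSh, hSh]
    refine hC.trans ?_
    apply Set.ncard_le_ncard _ (hνfin _)
    intro k hk
    exact le_trans hk hr
  have hone : 0 < (Sh n x (6 * e)).ncard := by
    rw [hSh, Set.ncard_pos (hνfin _)]
    exact ⟨0, by
      show ν 0 ≤ 6 * e
      rw [hν0]
      positivity⟩
  have honeR : (0 : ℝ) < ((Sh n x (6 * e)).ncard : ℝ) := by exact_mod_cast hone
  have e1 : (3 : ℝ) * (2 * e) = 6 * e := by ring
  have e2 : 16 * a / (2 * e) = 8 * a / e := by
    field_simp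
    norm_num
  rw [e1, e2] at hP
  have hC3 : (m : ℝ) ^ n * ((Sh n x (6 * e)).ncard : ℝ) ≤ ((Sh n x (a / 2)).ncard : ℝ) := by
    exact_mod_cast hC2
  have hmJ : (m : ℝ) ^ n * ((1 + j : ℕ) : ℝ) ≤ (8 * a / e) ^ n := by
    have h1 : ((Sh n x (6 * e)).ncard : ℝ) * ((m : ℝ) ^ n * ((1 + j : ℕ) : ℝ)) ≤
        ((Sh n x (6 * e)).ncard : ℝ) * (8 * a / e) ^ n := by
      calc ((Sh n x (6 * e)).ncard : ℝ) * ((m : ℝ) ^ n * ((1 + j : ℕ) : ℝ))
          = ((m : ℝ) ^ n * ((Sh n x (6 * e)).ncard : ℝ)) * ((1 + j : ℕ) : ℝ) := by ring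
        _ ≤ ((Sh n x (a / 2)).ncard : ℝ) * ((1 + j : ℕ) : ℝ) := by gcongr
        _ ≤ _ := hP
    exact le_of_mul_le_mul_left h1 honeR
  have hfac : 8 * a / e = (576 * n) * (a / (72 * n * e)) := by
    field_simp
    norm_num
  have hpos : 0 < a / (72 * n * e) := by positivity
  have hlow : (a / (72 * n * e)) ^ n * (a / (24 * e)) ≤ (m : ℝ) ^ n * ((1 + j : ℕ) : ℝ) := by
    gcongr
  rw [hfac, mul_pow] at hmJ
  have hfin : (a / (72 * n * e)) ^ n * (a / (24 * e)) ≤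
      (a / (72 * n * e)) ^ n * (576 * (n : ℝ)) ^ n := by
    calc _ ≤ _ := hlow
      _ ≤ _ := hmJ
      _ = _ := by ring
  have h2 : a / (24 * e) ≤ (576 * (n : ℝ)) ^ n :=
    le_of_mul_le_mul_left hfin (pow_pos hpos n)
  rw [div_le_iff₀ (by positivity)] at h2
  calc a ≤ (576 * (n : ℝ)) ^ n * (24 * e) := h2
    _ = 24 * (576 * (n : ℝ)) ^ n * e := by ring

end Pool.Agent.Helper50.CT
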