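import Mathlib

/-!
# Collapse of tori to an interval: definitions

The metric spaces in question: `X` is a simply connected proper geodesic space with curvature
`≥ -κ²` in the sense of Alexandrov (four-point comparison), the group `ℤⁿ` acts on it by isometries,
every element `≠ 0` moving all points by at least a fixed amount, and `T` is the quotient with the
quotient metric.  If `g` is a Riemannian metric on the torus `Tⁿ` with sectional curvature `≥ -κ²`,
then `X = ℝⁿ` with the distance of the lifted metric and `T = Tⁿ` with the distance of `g` are of this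
kind (theorems of Hopf-Rinow and Toponogov).
-/

set_option autoImplicit false

namespace Pool.Agent.Helper50.CT

/-- The comparison angle: the angle between the sides `a` and `b` of the triangle with sides `a, b, c`
in the hyperbolic plane of curvature `-κ²`. -/
noncomputable def ang (κ a b c : ℝ) : ℝ :=
  Real.arccos ((Real.cosh (κ * a) * Real.cosh (κ * b) - Real.cosh (κ * c)) /
    (Real.sinh (κ * a) * Real.sinh (κ * b)))

/-- Curvature `≥ -κ²` in the sense of Alexandrov: for all `p` and all `x, y, z ≠ p` the sum of the three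
comparison angles at `p` is at most `2π`. -/
def CurvGE (κ : ℝ) (X : Type) [MetricSpace X] : Prop :=
  ∀ p x y z : X, x ≠ p → y ≠ p → z ≠ p →
    ang κ (dist p x) (dist p y) (dist x y) + ang κ (dist p y) (dist p z) (dist y z)
      + ang κ (dist p z) (dist p x) (dist z x) ≤ 2 * Real.pi

/-- Any two points are joined by a shortest path (a geodesic space). -/
def Geod (X : Type) [MetricSpace X] : Prop :=
  ∀ x y : X, ∃ c : ℝ → X, c 0 = x ∧ c (dist x y) = y ∧
    ∀ s ∈ Set.Icc 0 (dist x y), ∀ t ∈ Set.Icc 0 (dist x y), dist (c s) (c t) = |s - t|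

/-- `T` is the quotient of `X` by an isometric action of `ℤⁿ` for which every element `≠ 0` moves all
points by at least `σ > 0`; the metric of `T` is the quotient metric. -/
structure IsQuot (n : ℕ) (X T : Type) [MetricSpace X] [MetricSpace T] [AddAction (Fin n → ℤ) X]
    (π : X → T) : Prop where
  isom : ∀ (k : Fin n → ℤ) (x y : X), dist (k +ᵥ x) (k +ᵥ y) = dist x y
  surj : Function.Surjective π
  quot : ∀ x y : X, dist (π x) (π y) = ⨅ k : Fin n → ℤ, dist x (k +ᵥ y)
  free : ∃ σ : ℝ, 0 < σ ∧ ∀ (x : X) (k : Fin n → ℤ), k ≠ 0 → σ ≤ dist x (k +ᵥ x)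

/-- Upper box dimension at most `n`, with the exact power: a `σ`-separated finite set has at most
`C σ⁻ⁿ` elements (true for every compact Riemannian manifold of dimension `n`). -/
def BoxDim (n : ℕ) (T : Type) [MetricSpace T] : Prop :=
  ∃ C : ℝ, ∀ σ : ℝ, 0 < σ → σ ≤ 1 → ∀ S : Finset T,
    (∀ x ∈ S, ∀ y ∈ S, x ≠ y → σ ≤ dist x y) → (S.card : ℝ) * σ ^ n ≤ C

/-- The integer vector `k` as a real vector. -/
def rv {n : ℕ} (k : Fin n → ℤ) : Fin n → ℝ := fun i => (k i : ℝ)

/-- `d` is a `ℤⁿ`-periodic metric on `ℝⁿ`, bi-Lipschitz equivalent to the Euclidean one, geodesic, with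
curvature `≥ -κ²` in the sense of Alexandrov.  If `g` is a Riemannian metric on `Tⁿ = ℝⁿ/ℤⁿ` with
sectional curvature `≥ -κ²`, the distance of its lift to `ℝⁿ` has these properties (Hopf-Rinow,
Toponogov). -/
structure TorusMetric (n : ℕ) (κ : ℝ) (d : (Fin n → ℝ) → (Fin n → ℝ) → ℝ) : Prop where
  symm : ∀ x y, d x y = d y x
  triangle : ∀ x y z, d x z ≤ d x y + d y z
  periodic : ∀ (k : Fin n → ℤ) (x y : Fin n → ℝ), d (rv k + x) (rv k + y) = d x y
  bilip : ∃ c C : ℝ, 0 < c ∧ ∀ x y, c * ‖x - y‖ ≤ d x y ∧ d x y ≤ C * ‖x - y‖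
  geod : ∀ x y, ∃ c : ℝ → (Fin n → ℝ), c 0 = x ∧ c (d x y) = y ∧
    ∀ s ∈ Set.Icc 0 (d x y), ∀ t ∈ Set.Icc 0 (d x y), d (c s) (c t) = |s - t|
  curv : ∀ p x y z : Fin n → ℝ, x ≠ p → y ≠ p → z ≠ p →
    ang κ (d p x) (d p y) (d x y) + ang κ (d p y) (d p z) (d y z)
      + ang κ (d p z) (d p x) (d z x) ≤ 2 * Real.pi

/-- `T` is the torus `ℝⁿ/ℤⁿ` with the quotient metric of `d`. -/
structure IsTorus (n : ℕ) (d : (Fin n → ℝ) → (Fin n → ℝ) → ℝ) (T : Type) [MetricSpace T]
    (π : (Fin n → ℝ) → T) : Prop where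
  surj : Function.Surjective π
  quot : ∀ x y, dist (π x) (π y) = ⨅ k : Fin n → ℤ, d x (rv k + y)

/-! ## Auxiliary notions used in the proof -/

/-- the points farther than `t` from `π p` (measured in the quotient) -/
def Up {X T : Type} [MetricSpace T] (π : X → T) (p : X) (t : ℝ) : Set X :=
  {w : X | t < dist (π p) (π w)}

/-- the elements which move `x` by at most `r` -/
def Sh (n : ℕ) {X : Type} [MetricSpace X] [AddAction (Fin n → ℤ) X] (x : X) (r : ℝ) :
    Set (Fin n → ℤ) := {k | dist x (k +ᵥ x) ≤ r}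

/-- pairwise distances at least `σ` -/
def Sep {Y : Type} [MetricSpace Y] (σ : ℝ) (S : Finset Y) : Prop :=
  ∀ x ∈ S, ∀ y ∈ S, x ≠ y → σ ≤ dist x y

end Pool.Agent.Helper50.CT
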