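import Pool.Agent.Helper50.CT.Goals

/-!
# Project CT, packet LIFT
-/

set_option autoImplicit false

open Set Filter Topology

open scoped Classical

namespace Pool.Agent.Helper50.CT

theorem goalLIFT : StmtLIFT := by
  intro n X T _ _ _ π hV x a τ S1 hτ hfree hS1 hsep
  have hlf : ∀ z : T, ∃ y : X, π y = z ∧ dist x y = dist (π x) z := by
    intro z
    obtain ⟨y, hy⟩ := hV.surj z
    obtain ⟨k, hk⟩ := hV.lift x y
    exact ⟨k +ᵥ y, by rw [hV.inv, hy], by rw [hk, hy]⟩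
  choose lf hlf1 hlf2 using hlf
  have hfin : (Sh n x (a / 2)).Finite := hV.fin x x (a / 2)
  obtain ⟨K, hK⟩ : ∃ K : Finset (Fin n → ℤ), K = hfin.toFinset := ⟨_, rfl⟩
  have hKm : ∀ k, k ∈ K ↔ dist x (k +ᵥ x) ≤ a / 2 := by
    intro k
    rw [hK, Set.Finite.mem_toFinset]
    rfl
  have hle : ∀ x y : X, dist (π x) (π y) ≤ dist x y := by
    intro x y
    have := hV.le x y 0
    rwa [zero_vadd] at this
  have hdist : ∀ (k k' : Fin n → ℤ) (z z' : T), z ∈ S1 → z' ∈ S1 → (k, z) ≠ (k', z') →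
      τ ≤ dist (k +ᵥ lf z) (k' +ᵥ lf z') := by
    intro k k' z z' hz hz' hne
    by_cases h : z = z'
    · subst h
      have hkk : k' - k ≠ 0 := by
        intro h0
        apply hne
        rw [sub_eq_zero] at h0
        rw [h0]
      have h1 : dist (k +ᵥ lf z) (k' +ᵥ lf z) = dist (lf z) ((k' - k) +ᵥ lf z) := by
        rw [← hV.isom k (lf z) ((k' - k) +ᵥ lf z), vadd_vadd, add_sub_cancel]
      rw [h1]
      exact hfree _ _ hkk
    · calc τ ≤ dist z z' := hsep z hz z' hz' h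
        _ = dist (π (k +ᵥ lf z)) (π (k' +ᵥ lf z')) := by rw [hV.inv, hV.inv, hlf1, hlf1]
        _ ≤ dist (k +ᵥ lf z) (k' +ᵥ lf z') := hle _ _
  refine ⟨(K ×ˢ S1).image (fun q => q.1 +ᵥ lf q.2), ?_, ?_, ?_⟩
  · intro w hw
    rw [Finset.mem_image] at hw
    obtain ⟨⟨k, z⟩, hq, rfl⟩ := hw
    rw [Finset.mem_product] at hq
    have h1 := (hKm k).1 hq.1
    have h2 := hS1 z hq.2
    have h3 : dist (k +ᵥ lf z) (k +ᵥ x) = dist (π x) z := by
      rw [hV.isom, dist_comm, hlf2]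
    have h4 := dist_triangle (k +ᵥ lf z) (k +ᵥ x) x
    rw [dist_comm (k +ᵥ x) x, h3, dist_comm (π x) z] at h4
    show dist (k +ᵥ lf z) x ≤ a
    linarith
  · intro w hw w' hw' hne
    rw [Finset.mem_image] at hw hw'
    obtain ⟨⟨k, z⟩, hq, rfl⟩ := hw
    obtain ⟨⟨k', z'⟩, hq', rfl⟩ := hw'
    rw [Finset.mem_product] at hq hq'
    refine hdist k k' z z' hq.2 hq'.2 ?_
    intro h
    apply hne
    rw [h]
  · rw [Finset.card_image_of_injOn, Finset.card_product, hK,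
      Set.ncard_eq_toFinset_card _ hfin]
    rintro ⟨k, z⟩ hq ⟨k', z'⟩ hq' heq
    by_contra hne
    rw [Finset.mem_coe, Finset.mem_product] at hq hq'
    have h1 := hdist k k' z z' hq.2 hq'.2 hne
    have heq : k +ᵥ lf z = k' +ᵥ lf z' := heq
    rw [heq, dist_self] at h1
    linarith

end Pool.Agent.Helper50.CT
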