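import Pool.Agent.Helper50.CT.Goals

/-!
# Project CT: sequences of torus metrics
-/

set_option autoImplicit false

open Set Filter Topology

namespace Pool.Agent.Helper50.CT

/-- No sequence of tori with curvature `≥ -κ²` converges to an interval. -/
theorem no_seq (hT : StmtTORUS) (n : ℕ) (κ l : ℝ) (d : ℕ → (Fin n → ℝ) → (Fin n → ℝ) → ℝ)
    (T : ℕ → Type) [∀ i, MetricSpace (T i)] [∀ i, CompactSpace (T i)] [∀ i, Nonempty (T i)]
    [Nonempty (Icc (0 : ℝ) l)] (π : ∀ i, (Fin n → ℝ) → T i) (hn : 1 ≤ n) (hκ : 0 < κ)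
    (hl : 0 < l) (hd : ∀ i, TorusMetric n κ (d i)) (hq : ∀ i, IsTorus n (d i) (T i) (π i)) :
    ¬ Tendsto (fun i => GromovHausdorff.ghDist (T i) (Icc (0 : ℝ) l)) atTop (𝓝 0) := by
  intro h
  have hn1 : (0 : ℝ) < n := by exact_mod_cast (by omega : 0 < n)
  have hpos : 0 < min l (1 / κ) / (2000 * (600 * (n : ℝ)) ^ n) := by
    have : 0 < min l (1 / κ) := lt_min hl (by positivity)
    positivity
  obtain ⟨i, hi⟩ := (h.eventually_lt_const hpos).exists
  have := hT n κ l (d i) (T i) (π i) hn hκ hl (hd i) (hq i)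
  linarith

/-- If the distances tend to zero, the curvature bounds tend to infinity at a definite rate. -/
theorem rate (hT : StmtTORUS) (n : ℕ) (l : ℝ) (κ : ℕ → ℝ)
    (d : ℕ → (Fin n → ℝ) → (Fin n → ℝ) → ℝ)
    (T : ℕ → Type) [∀ i, MetricSpace (T i)] [∀ i, CompactSpace (T i)] [∀ i, Nonempty (T i)]
    [Nonempty (Icc (0 : ℝ) l)] (π : ∀ i, (Fin n → ℝ) → T i) (hn : 1 ≤ n) (hκ : ∀ i, 0 < κ i)
    (hl : 0 < l) (hd : ∀ i, TorusMetric n (κ i) (d i))
    (hq : ∀ i, IsTorus n (d i) (T i) (π i))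
    (h : Tendsto (fun i => GromovHausdorff.ghDist (T i) (Icc (0 : ℝ) l)) atTop (𝓝 0)) :
    ∀ᶠ i in atTop, 1 / (2000 * (600 * (n : ℝ)) ^ n)
      ≤ κ i * GromovHausdorff.ghDist (T i) (Icc (0 : ℝ) l) := by
  have hn1 : (0 : ℝ) < n := by exact_mod_cast (by omega : 0 < n)
  have hpos : 0 < l / (2000 * (600 * (n : ℝ)) ^ n) := by positivity
  filter_upwards [h.eventually_lt_const hpos] with i hi
  have h1 := hT n (κ i) l (d i) (T i) (π i) hn (hκ i) hl (hd i) (hq i)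
  obtain ⟨K, hK⟩ : ∃ K : ℝ, K = 2000 * (600 * (n : ℝ)) ^ n := ⟨_, rfl⟩
  rw [← hK] at hi h1 ⊢
  have hK0 : 0 < K := by rw [hK]; positivity
  have hk := hκ i
  have h2 : min l (1 / κ i) = 1 / κ i := by
    by_contra hne
    rcases min_choice l (1 / κ i) with h3 | h3
    · rw [h3] at h1
      linarith
    · exact hne h3
  rw [h2, div_le_iff₀ hK0] at h1
  rw [div_le_iff₀ hK0]
  have h4 : κ i * (1 / κ i) = 1 := by field_simp
  have h5 := mul_le_mul_of_nonneg_left h1 hk.le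
  rw [h4] at h5
  linarith

end Pool.Agent.Helper50.CT
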