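import Pool.Agent.Helper50.CT.Assembly
import Pool.Agent.Helper50.CT.Seq
import Pool.Agent.Helper50.CT.LIFT
import Pool.Agent.Helper53.CT.Q0
import Pool.Agent.Helper86.CT.PS
import Pool.Agent.Helper83.CT.TRI
import Pool.Agent.Helper22.CT.SJ
import Pool.Agent.Helper61.CT.LPC
import Pool.Agent.Helper89.CT.LAB
import Pool.Agent.Helper55.CT.BG
import Pool.Agent.Helper79.CT.GEN
import Pool.Agent.Helper5.CT.FC
import Pool.Agent.Helper37.CT.END
import Pool.Agent.Helper16.CT.MID
import Pool.Agent.Helper30.CT.TOP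
import Pool.Agent.Helper85.CT.EX
import Pool.Agent.Helper86.CT.CX
import Pool.Agent.Helper33.CT.QC
import Pool.Agent.Helper95.CT.SLIDE
import Pool.Agent.Helper36.CT.SHRINK
import Pool.Agent.Helper34.CT.PROJ
import Pool.Agent.Helper8.CT.PACK
import Pool.Agent.Helper62.CT.COUNT
import Pool.Agent.Helper50.CT.B
import Pool.Agent.Helper15.CT.GH
import Pool.Agent.Helper49.CT.TB
import Pool.Agent.Helper39.CT.TORUS

/-!
# Project CT: the theorems, all packets put together
-/

set_option autoImplicit false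

namespace Pool.Agent.Helper50.CT

theorem fBG : StmtBG := Pool.Agent.Helper55.CT.goalBG
theorem fGEN : StmtGEN :=
  Pool.Agent.Helper79.CT.goalGEN Pool.Agent.Helper22.CT.goalSJ Pool.Agent.Helper89.CT.goalLAB fBG
theorem fEND : StmtEND :=
  Pool.Agent.Helper37.CT.goalEND Pool.Agent.Helper22.CT.goalSJ Pool.Agent.Helper61.CT.goalLPC fBG
    fGEN Pool.Agent.Helper5.CT.goalFC Pool.Agent.Helper83.CT.goalTRI
theorem fMID : StmtMID :=
  Pool.Agent.Helper16.CT.goalMID Pool.Agent.Helper22.CT.goalSJ fBG fGEN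
    Pool.Agent.Helper5.CT.goalFC Pool.Agent.Helper83.CT.goalTRI
theorem fCX : StmtCX :=
  Pool.Agent.Helper86.CT.goalCX Pool.Agent.Helper86.CT.goalPS Pool.Agent.Helper85.CT.goalEX
theorem fPACK : StmtPACK :=
  Pool.Agent.Helper8.CT.goalPACK Pool.Agent.Helper33.CT.goalQC
    (Pool.Agent.Helper95.CT.goalSLIDE fCX) goalLIFT (Pool.Agent.Helper36.CT.goalSHRINK fCX)
    Pool.Agent.Helper34.CT.goalPROJ
theorem fB : StmtB := goalB fPACK Pool.Agent.Helper62.CT.goalCOUNT

theorem main_final : StmtMAIN :=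
  main Pool.Agent.Helper53.CT.goalQ0 fEND fMID Pool.Agent.Helper30.CT.goalTOP
    Pool.Agent.Helper61.CT.goalLPC Pool.Agent.Helper89.CT.goalLAB fBG
    Pool.Agent.Helper5.CT.goalFC fB Pool.Agent.Helper15.CT.goalGH

theorem torus_final : StmtTORUS :=
  Pool.Agent.Helper39.CT.goalTORUS main_final Pool.Agent.Helper49.CT.goalTB

end Pool.Agent.Helper50.CT
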